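import Pool.Agent.Helper5.FS.Stmts

set_option autoImplicit false

open Finset

namespace Pool.Agent.Helper2.FS

open Pool.Agent.Helper5.FS

theorem st_FIB : ST_FIB := by
  intro n M s P hM
  have h1 : ((univ : Finset (Finset (Fin n))).filter
      (fun A => ∃ D ∈ P, A ⊆ D ∧ D.card ≤ 2 * s)) ⊆
      (P.filter (fun D => D.card ≤ 2 * s)).biUnion Finset.powerset := by
    intro A hA
    rw [Finset.mem_filter] at hA
    obtain ⟨_, D, hD, hAD, hc⟩ := hA
    rw [Finset.mem_biUnion]
    exact ⟨D, Finset.mem_filter.2 ⟨hD, hc⟩, Finset.mem_powerset.2 hAD⟩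
  calc _ ≤ ((P.filter (fun D => D.card ≤ 2 * s)).biUnion Finset.powerset).card :=
        Finset.card_le_card h1
    _ ≤ ∑ D ∈ P.filter (fun D => D.card ≤ 2 * s), (Finset.powerset D).card :=
        Finset.card_biUnion_le
    _ ≤ ∑ _D ∈ P.filter (fun D => D.card ≤ 2 * s), 2 ^ (2 * s) := by
        refine Finset.sum_le_sum fun D hD => ?_
        rw [Finset.card_powerset]
        exact Nat.pow_le_pow_right (by norm_num) (Finset.mem_filter.1 hD).2
    _ = (P.filter (fun D => D.card ≤ 2 * s)).card * 2 ^ (2 * s) := by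
        rw [Finset.sum_const, smul_eq_mul]
    _ ≤ M * 2 ^ (2 * s) :=
        Nat.mul_le_mul_right _ ((Finset.card_filter_le _ _).trans hM)

end Pool.Agent.Helper2.FS
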