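import Pool.Agent.Helper97.FS.Stmts

set_option autoImplicit false

namespace Pool.Agent.Helper97.FS

open Finset MeasureTheory Filter Topology
open scoped ComplexConjugate
open Pool.Agent.Helper97.Sub

variable {d : ℕ}

lemma wrep_ab_take_mono (V : List (Fin d)) {i i' : ℕ} (h : i ≤ i') :
    ab (V.take i) ≤ ab (V.take i') := by
  intro a
  have hs : (V.take i).Sublist (V.take i') := by
    have : V.take i = (V.take i').take i := by
      rw [List.take_take, min_eq_left h]
    rw [this]
    exact List.take_sublist _ _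
  simpa [ab] using hs.count_le a

lemma wrep_chi_sub {y : Fin d → ℂ} (hy : ∀ a, ‖y a‖ = 1) (i j : Fin d → ℤ) :
    chi y (i - j) = chi y i * conj (chi y j) := by
  unfold chi
  rw [map_prod, ← Finset.prod_mul_distrib]
  refine Finset.prod_congr rfl fun a _ => ?_
  have h0 : y a ≠ 0 := by
    intro h; have := hy a; rw [h] at this; simp at this
  rw [Pi.sub_apply, zpow_sub₀ h0, div_eq_mul_inv, map_zpow₀, ← Complex.inv_eq_conj (hy a),
    inv_zpow]

lemma wrep_ww_neg (s : ℝ) : ww (-s) = ww s := by
  unfold ww; rw [abs_neg]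

lemma wrep_len_sub (L : Fin d → ℝ) (i j : Fin d → ℤ) : len L (i - j) = len L i - len L j := by
  unfold len
  rw [← Finset.sum_sub_distrib]
  refine Finset.sum_congr rfl fun a _ => ?_
  simp only [Pi.sub_apply, Int.cast_sub]
  ring

lemma wrep_ww_zero {s : ℝ} (h : 1 ≤ |s|) : ww s = 0 := by
  unfold ww
  rw [max_eq_right (by linarith)]
  simp

/-- Sets of displacements of bounded length are finite. -/
lemma wrep_fin {L : Fin d → ℝ} (hL : ∀ a, 0 < L a) (R : ℝ) :
    {j : Fin d → ℤ | (0 ≤ j ∨ j ≤ 0) ∧ |len L j| ≤ R}.Finite := by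
  have key : ∀ j : Fin d → ℤ, 0 ≤ j → |len L j| ≤ R → ∀ a, j a ≤ ⌈R / L a⌉ := by
    intro j hj hl a
    have h1 : L a * (j a : ℝ) ≤ len L j := by
      unfold len
      refine Finset.single_le_sum (f := fun a => L a * (j a : ℝ)) (fun b _ => ?_) (mem_univ a)
      exact mul_nonneg (hL b).le (by exact_mod_cast hj b)
    have h2 : (j a : ℝ) ≤ R / L a := by
      rw [le_div_iff₀ (hL a)]
      calc (j a : ℝ) * L a = L a * j a := mul_comm _ _
        _ ≤ len L j := h1
        _ ≤ |len L j| := le_abs_self _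
        _ ≤ R := hl
    exact_mod_cast h2.trans (Int.le_ceil _)
  refine (Set.finite_Icc (-(fun a => ⌈R / L a⌉) : Fin d → ℤ)
    ((fun a => ⌈R / L a⌉) ⊔ 0)).union (Set.finite_Icc
      (-((fun a => ⌈R / L a⌉) ⊔ 0) : Fin d → ℤ) ((fun a => ⌈R / L a⌉) ⊔ 0)) |>.subset ?_
  rintro j ⟨hj | hj, hl⟩
  · right
    constructor
    · intro a
      have : 0 ≤ ((fun a => ⌈R / L a⌉) ⊔ (0 : Fin d → ℤ)) a := by simp
      have h3 := hj a
      simp only [Pi.zero_apply] at h3
      simp only [Pi.neg_apply]
      linarith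
    · intro a
      exact (key j hj hl a).trans (by simp)
  · right
    have hj' : 0 ≤ -j := by
      intro a; have := hj a; simp only [Pi.zero_apply] at this; simp only [Pi.zero_apply,
        Pi.neg_apply]; linarith
    have hl' : |len L (-j)| ≤ R := by
      have : len L (-j) = -len L j := by
        have := wrep_len_sub L 0 j
        simpa [len] using this
      rw [this, abs_neg]; exact hl
    constructor
    · intro a
      have h1 := key (-j) hj' hl' a
      have h2 : ⌈R / L a⌉ ≤ ((fun a => ⌈R / L a⌉) ⊔ (0 : Fin d → ℤ)) a := by simp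
      simp only [Pi.neg_apply] at h1 ⊢
      linarith
    · intro a
      have : 0 ≤ ((fun a => ⌈R / L a⌉) ⊔ (0 : Fin d → ℤ)) a := by simp
      have h3 := hj a
      simp only [Pi.zero_apply] at h3
      linarith

lemma wrep_cmp (V : List (Fin d)) (i i' : ℕ) :
    0 ≤ ab (V.take i') - ab (V.take i) ∨ ab (V.take i') - ab (V.take i) ≤ 0 := by
  rcases le_total i i' with h | h
  · left; exact sub_nonneg.mpr (wrep_ab_take_mono V h)
  · right; exact sub_nonpos.mpr (wrep_ab_take_mono V h)

/-- The quadratic form as a sum over displacements. -/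
lemma wrep_qf {L : Fin d → ℝ} {y : Fin d → ℂ} (hy : ∀ a, ‖y a‖ = 1) {t : ℝ}
    (ht : 0 < t) (J : Finset (Fin d → ℤ)) (hJ : ∀ j, (0 ≤ j ∨ j ≤ 0) → |len L j| ≤ t → j ∈ J)
    (V : List (Fin d)) :
    qf L y t V = ∑ j ∈ J, (∑ c, (cnt V c c j : ℝ)) * (chi y j).re * ww (len L j / t) := by
  classical
  unfold qf
  have hc : ∀ c : Fin d, ∑ i ∈ range V.length, ∑ i' ∈ range V.length,
      (zz y V c i * conj (zz y V c i')).re * ww ((pos L V i - pos L V i') / t) =
      ∑ j ∈ J, (cnt V c c j : ℝ) * ((chi y j).re * ww (len L j / t)) := by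
    intro c
    set D : ℕ × ℕ → (Fin d → ℤ) := fun p => ab (V.take p.2) - ab (V.take p.1) with hD
    set F : Finset (ℕ × ℕ) := (range V.length ×ˢ range V.length).filter
      (fun p => V[p.1]? = some c ∧ V[p.2]? = some c) with hF
    rw [← Finset.sum_product' (range V.length) (range V.length) (fun i i' =>
      (zz y V c i * conj (zz y V c i')).re * ww ((pos L V i - pos L V i') / t))]
    have h1 : ∑ p ∈ range V.length ×ˢ range V.length,
        (zz y V c p.1 * conj (zz y V c p.2)).re * ww ((pos L V p.1 - pos L V p.2) / t) =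
        ∑ p ∈ F, (chi y (D p)).re * ww (len L (D p) / t) := by
      rw [hF, Finset.sum_filter]
      refine Finset.sum_congr rfl fun p _ => ?_
      by_cases h : V[p.1]? = some c ∧ V[p.2]? = some c
      · rw [if_pos h, zz, zz, if_pos h.1, if_pos h.2]
        congr 1
        · rw [hD]
          rw [wrep_chi_sub hy]
          rw [← Complex.conj_re, map_mul, Complex.conj_conj, mul_comm]
        · rw [hD]
          simp only
          rw [pos, pos, wrep_len_sub, ← wrep_ww_neg]
          congr 1
          ring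
      · rw [if_neg h]
        rw [not_and_or] at h
        rcases h with h | h
        · rw [zz, if_neg h]; simp
        · rw [zz, zz, if_neg h]; simp
    rw [h1]
    have h2 : ∀ p ∈ F, (chi y (D p)).re * ww (len L (D p) / t) =
        ∑ j ∈ J, if D p = j then (chi y j).re * ww (len L j / t) else 0 := by
      intro p _
      rw [Finset.sum_ite_eq J (D p) (fun j => (chi y j).re * ww (len L j / t))]
      split_ifs with h
      · rfl
      · have : ww (len L (D p) / t) = 0 := by
          apply wrep_ww_zero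
          rw [abs_div, abs_of_pos ht, le_div_iff₀ ht, one_mul]
          by_contra hlt
          exact h (hJ _ (wrep_cmp V p.1 p.2) (le_of_lt (not_le.mp hlt)))
        rw [this, mul_zero]
    rw [Finset.sum_congr rfl h2, Finset.sum_comm]
    refine Finset.sum_congr rfl fun j _ => ?_
    rw [← Finset.sum_filter, Finset.sum_const, nsmul_eq_mul]
    congr 1
    rw [cnt, hF, Finset.filter_filter]
    congr 2
    ext p
    simp only [Finset.mem_filter, hD]
    tauto
  rw [Finset.sum_congr rfl fun c _ => hc c, Finset.sum_comm]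
  refine Finset.sum_congr rfl fun j _ => ?_
  rw [← Finset.sum_mul, mul_assoc]

lemma wrep_gam_supp {σ : Fin d → List (Fin d)} {M : Matrix (Fin d) (Fin d) ℤ} {θ : ℝ}
    {L f : Fin d → ℝ} {gam : Fin d → Fin d → (Fin d → ℤ) → ℝ} (h : Dyn σ M θ L f gam)
    (c e : Fin d) (j : Fin d → ℤ) (hg : gam c e j ≠ 0) : 0 ≤ j ∨ j ≤ 0 := by
  by_contra hcon
  apply hg
  refine tendsto_nhds_unique (h.gl c c e j) ?_
  have : (fun N : ℕ => (cnt (T σ N c) c e j : ℝ) / ((T σ N c).length : ℝ)) = fun _ => 0 := by
    funext N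
    have h0 : cnt (T σ N c) c e j = 0 := by
      rw [cnt, Finset.card_eq_zero, Finset.filter_eq_empty_iff]
      rintro p _ ⟨_, _, h3⟩
      exact hcon (h3 ▸ wrep_cmp _ p.1 p.2)
    rw [h0]; simp
  rw [this]
  exact tendsto_const_nhds

theorem st_WREP (hww : ST_WW) : ST_WREP := by
  intro d σ M θ L f gam h y hy t ht
  classical
  set J : Finset (Fin d → ℤ) := (wrep_fin h.Lpos t).toFinset with hJd
  have hJ : ∀ j, (0 ≤ j ∨ j ≤ 0) → |len L j| ≤ t → j ∈ J := by
    intro j h1 h2
    rw [hJd, Set.Finite.mem_toFinset]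
    exact ⟨h1, h2⟩
  have hVV : VV gam L y t = ∑ j ∈ J, (∑ c, gam c c j) * (chi y j).re * ww (len L j / t) := by
    unfold VV
    refine finsum_eq_sum_of_support_subset _ ?_
    intro j hj
    rw [Function.mem_support] at hj
    have h1 : (∑ c, gam c c j) ≠ 0 := fun h0 => hj (by rw [h0]; ring)
    have h2 : ww (len L j / t) ≠ 0 := fun h0 => hj (by rw [h0]; ring)
    obtain ⟨c, _, hc⟩ := Finset.exists_ne_zero_of_sum_ne_zero h1
    refine hJ j (wrep_gam_supp h c c j hc) ?_
    by_contra hlt
    apply h2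
    apply wrep_ww_zero
    rw [abs_div, abs_of_pos ht, le_div_iff₀ ht, one_mul]
    exact (not_le.mp hlt).le
  have htend : ∀ a : Fin d, Tendsto (fun N : ℕ => qf L y t (T σ N a) / ((T σ N a).length : ℝ))
      atTop (𝓝 (VV gam L y t)) := by
    intro a
    rw [hVV]
    have e : (fun N : ℕ => qf L y t (T σ N a) / ((T σ N a).length : ℝ)) = fun N : ℕ =>
        ∑ j ∈ J, (∑ c, (cnt (T σ N a) c c j : ℝ) / ((T σ N a).length : ℝ)) *
          (chi y j).re * ww (len L j / t) := by
      funext N
      rw [wrep_qf hy ht J hJ, Finset.sum_div]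
      refine Finset.sum_congr rfl fun j _ => ?_
      rw [← Finset.sum_div]
      ring
    rw [e]
    refine tendsto_finsetSum _ fun j _ => ?_
    refine ((tendsto_finsetSum _ fun c _ => h.gl a c c j).mul_const _).mul_const _
  have hpos : ∀ V : List (Fin d), 0 ≤ qf L y t V := by
    intro V
    unfold qf
    refine Finset.sum_nonneg fun c _ => ?_
    have h1 := hww V.length (pos L V) (zz y V c) t ht
    have h2 : 0 ≤ ∫ s in (0 : ℝ)..t, ∫ x : ℝ, ‖∑ i ∈ range V.length,
        if x ≤ pos L V i ∧ pos L V i < x + s then zz y V c i else 0‖ ^ 2 :=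
      intervalIntegral.integral_nonneg ht.le fun s _ => integral_nonneg fun x => by positivity
    rw [← h1] at h2
    exact nonneg_of_mul_nonneg_right h2 (by positivity)
  refine ⟨?_, htend⟩
  have hd : ∃ a : Fin d, True := by
    by_contra hcon
    push Not at hcon
    have h1 := h.fsum
    rw [Finset.sum_eq_zero fun a _ => (hcon a).elim] at h1
    exact zero_ne_one h1
  obtain ⟨a, _⟩ := hd
  exact ge_of_tendsto' (htend a) fun N => div_nonneg (hpos _) (Nat.cast_nonneg _)

end Pool.Agent.Helper97.FS
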