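import Pool.Agent.Helper97.FS.Stmts

set_option autoImplicit false

namespace Pool.Agent.Helper97.FS

open Finset MeasureTheory Filter Topology
open scoped ComplexConjugate

lemma ww_normsq {ι : Type} (S : Finset ι) (w : ι → ℂ) :
    ‖∑ i ∈ S, w i‖ ^ 2 = ∑ i ∈ S, ∑ i' ∈ S, (w i * conj (w i')).re := by
  have h : ((‖∑ i ∈ S, w i‖ ^ 2 : ℝ) : ℂ) = ∑ i ∈ S, ∑ i' ∈ S, (w i * conj (w i')) := by
    rw [← Finset.sum_mul_sum, ← map_sum, Complex.mul_conj, Complex.normSq_eq_norm_sq]
  have h2 := congrArg Complex.re h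
  rw [Complex.ofReal_re] at h2
  rw [h2, Complex.re_sum]
  refine Finset.sum_congr rfl fun i _ => ?_
  rw [Complex.re_sum]

lemma ww_int1 (a b s : ℝ) (c : ℝ) :
    (Integrable fun x : ℝ => (Set.Ioc (max (a - s) (b - s)) (min a b)).indicator
      (fun _ => c) x) ∧
    ∫ x : ℝ, (Set.Ioc (max (a - s) (b - s)) (min a b)).indicator (fun _ => c) x =
      c * max (s - |a - b|) 0 := by
  constructor
  · exact (integrable_indicator_iff measurableSet_Ioc).mpr
      (integrableOn_const (by simp [Real.volume_Ioc]))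
  · rw [integral_indicator measurableSet_Ioc, setIntegral_const, Real.volume_real_Ioc,
      smul_eq_mul, mul_comm]
    congr 2
    rcases le_total a b with h | h
    · rw [min_eq_left h, max_eq_right (by linarith), abs_of_nonpos (by linarith)]; ring
    · rw [min_eq_right h, max_eq_left (by linarith), abs_of_nonneg (by linarith)]; ring

lemma ww_int2 (c t : ℝ) (hc : 0 ≤ c) (ht : 0 < t) :
    ∫ s in (0 : ℝ)..t, max (s - c) 0 = (max (t - c) 0) ^ 2 / 2 := by
  rcases le_total t c with h | h
  · rw [max_eq_right (by linarith : t - c ≤ 0)]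
    have : ∫ s in (0 : ℝ)..t, max (s - c) 0 = ∫ s in (0 : ℝ)..t, (0 : ℝ) := by
      refine intervalIntegral.integral_congr fun s hs => ?_
      rw [Set.uIcc_of_le ht.le] at hs
      exact max_eq_right (by linarith [hs.2])
    rw [this]; simp
  · have hcont : Continuous fun s : ℝ => max (s - c) 0 := by fun_prop
    rw [← intervalIntegral.integral_add_adjacent_intervals (b := c)
      (hcont.intervalIntegrable _ _) (hcont.intervalIntegrable _ _)]
    have h1 : ∫ s in (0 : ℝ)..c, max (s - c) 0 = ∫ s in (0 : ℝ)..c, (0 : ℝ) := by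
      refine intervalIntegral.integral_congr fun s hs => ?_
      rw [Set.uIcc_of_le hc] at hs
      exact max_eq_right (by linarith [hs.2])
    have h2 : ∫ s in c..t, max (s - c) 0 = ∫ s in c..t, (s - c) := by
      refine intervalIntegral.integral_congr fun s hs => ?_
      rw [Set.uIcc_of_le h] at hs
      exact max_eq_left (by linarith [hs.1])
    rw [h1, h2, max_eq_left (by linarith : (0 : ℝ) ≤ t - c)]
    simp only [intervalIntegral.integral_zero, zero_add]
    rw [intervalIntegral.integral_sub (by simp) (by simp)]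
    simp only [integral_id, intervalIntegral.integral_const, smul_eq_mul]
    ring

theorem st_WW : ST_WW := by
  intro ℓ p z t ht
  have hinner : ∀ s : ℝ, ∫ x : ℝ, ‖∑ i ∈ range ℓ, if x ≤ p i ∧ p i < x + s then z i else 0‖ ^ 2 =
      ∑ i ∈ range ℓ, ∑ i' ∈ range ℓ, (z i * conj (z i')).re * max (s - |p i - p i'|) 0 := by
    intro s
    have hpt : ∀ x : ℝ, ‖∑ i ∈ range ℓ, if x ≤ p i ∧ p i < x + s then z i else 0‖ ^ 2 =
        ∑ i ∈ range ℓ, ∑ i' ∈ range ℓ,
          (Set.Ioc (max (p i - s) (p i' - s)) (min (p i) (p i'))).indicator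
            (fun _ => (z i * conj (z i')).re) x := by
      intro x
      rw [ww_normsq]
      refine Finset.sum_congr rfl fun i _ => Finset.sum_congr rfl fun i' _ => ?_
      have e1 : x ∈ Set.Ioc (max (p i - s) (p i' - s)) (min (p i) (p i')) ↔
          (x ≤ p i ∧ p i < x + s) ∧ (x ≤ p i' ∧ p i' < x + s) := by
        simp only [Set.mem_Ioc, max_lt_iff, le_min_iff]
        constructor
        · rintro ⟨⟨h1, h2⟩, h3, h4⟩
          exact ⟨⟨h3, by linarith⟩, h4, by linarith⟩
        · rintro ⟨⟨h1, h2⟩, h3, h4⟩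
          exact ⟨⟨by linarith, by linarith⟩, h1, h3⟩
      by_cases h1 : x ≤ p i ∧ p i < x + s
      · by_cases h2 : x ≤ p i' ∧ p i' < x + s
        · rw [Set.indicator_of_mem (e1.mpr ⟨h1, h2⟩), if_pos h1, if_pos h2]
        · rw [Set.indicator_of_notMem (fun h => h2 (e1.mp h).2), if_neg h2]
          simp
      · rw [Set.indicator_of_notMem (fun h => h1 (e1.mp h).1), if_neg h1]
        simp
    rw [integral_congr_ae (Filter.Eventually.of_forall hpt), integral_finsetSum]
    · refine Finset.sum_congr rfl fun i _ => ?_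
      rw [integral_finsetSum]
      · exact Finset.sum_congr rfl fun i' _ => (ww_int1 _ _ _ _).2
      · exact fun i' _ => (ww_int1 _ _ _ _).1
    · exact fun i _ => integrable_finsetSum _ fun i' _ => (ww_int1 _ _ _ _).1
  have hcont : ∀ i i' : ℕ, Continuous fun s : ℝ =>
      (z i * conj (z i')).re * max (s - |p i - p i'|) 0 := by
    intro i i'; fun_prop
  simp_rw [hinner]
  rw [intervalIntegral.integral_finsetSum fun i _ =>
    (continuous_finsetSum _ fun i' _ => hcont i i').intervalIntegrable _ _, Finset.mul_sum]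
  refine Finset.sum_congr rfl fun i _ => ?_
  rw [intervalIntegral.integral_finsetSum fun i' _ => (hcont i i').intervalIntegrable _ _,
    Finset.mul_sum]
  refine Finset.sum_congr rfl fun i' _ => ?_
  rw [intervalIntegral.integral_const_mul, ww_int2 _ _ (abs_nonneg _) ht]
  have e2 : max (t - |p i - p i'|) 0 = t * max (1 - |(p i - p i') / t|) 0 := by
    rw [mul_max_of_nonneg _ _ ht.le, mul_zero, abs_div, abs_of_pos ht]
    congr 1
    field_simp
  rw [e2, ww]
  ring

end Pool.Agent.Helper97.FS
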